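import Pool.Agent.ICB.CS
import Pool.Agent.IcoLocal.Collinear

/-!
# Steiner's question near the icosahedral polytopes whose main diagonals have collinear midpoints
-/

set_option autoImplicit false

namespace Pool.Agent.Results.MP_fa01f0_gt.CollinearMidpoints

open Pool.Agent.ICB

/-- (1) Let `P` be a convex polytope with nonempty interior, `φ` an isomorphism of its face poset
with the one of the regular icosahedron `I` (edge `2`, centre `0`), and suppose that the midpoints of
the six main diagonals of `P` lie on a line (main diagonal: segment from a vertex `v` to the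
opposite vertex `v'`, i.e. `φ` maps `v` to `x` and `v'` to `-x`). Then there is `ε > 0` such that
Steiner's inequality `A ^ 3 / V ^ 2 ≥ A(I) ^ 3 / V(I) ^ 2` holds for every convex polytope `Q` with
nonempty interior of the icosahedral type whose vertices are `ε`-close to those of `P` (in
particular for `P`), with equality only if `Q` is similar to `I`.

(2) In particular (all the midpoints coincide), Steiner's inequality holds for every polytope of the
icosahedral type with a centre of symmetry: the frozen statement S14269, restricted to them. -/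
theorem result :
    (∀ S : Finset (EuclideanSpace ℝ (Fin 3)),
      (interior (convexHull ℝ (S : Set (EuclideanSpace ℝ (Fin 3))))).Nonempty →
      ∀ (φ : Faces (convexHull ℝ (S : Set (EuclideanSpace ℝ (Fin 3)))) ≃o Faces icosahedron)
        (c e : EuclideanSpace ℝ (Fin 3)),
      (∀ v v' x, Corr φ v x → Corr φ v' (-x) → ∃ t : ℝ, (1 / 2 : ℝ) • (v + v') = c + t • e) →
      ∃ ε > 0, ∀ T : Finset (EuclideanSpace ℝ (Fin 3)),
        (interior (convexHull ℝ (T : Set (EuclideanSpace ℝ (Fin 3))))).Nonempty →
        ∀ ψ : Faces (convexHull ℝ (T : Set (EuclideanSpace ℝ (Fin 3)))) ≃o Faces icosahedron,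
          (∀ v v' x, Corr φ v x → Corr ψ v' x → dist v v' < ε) →
          surf icosahedron ^ 3 * volm (convexHull ℝ (T : Set (EuclideanSpace ℝ (Fin 3)))) ^ 2 ≤
            surf (convexHull ℝ (T : Set (EuclideanSpace ℝ (Fin 3)))) ^ 3 * volm icosahedron ^ 2 ∧
          (surf icosahedron ^ 3 * volm (convexHull ℝ (T : Set (EuclideanSpace ℝ (Fin 3)))) ^ 2 =
            surf (convexHull ℝ (T : Set (EuclideanSpace ℝ (Fin 3)))) ^ 3 * volm icosahedron ^ 2 →
            ∃ r > 0, ∀ v v' x x', Corr ψ v x → Corr ψ v' x' → dist v v' = r * dist x x')) ∧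
    ∀ (S : Finset (EuclideanSpace ℝ (Fin 3))) (P : Set (EuclideanSpace ℝ (Fin 3))),
      P = convexHull ℝ (S : Set (EuclideanSpace ℝ (Fin 3))) → (interior P).Nonempty →
      Nonempty (Faces P ≃o Faces icosahedron) →
      (∃ c : EuclideanSpace ℝ (Fin 3), ∀ x ∈ P, (2 : ℝ) • c - x ∈ P) →
      surf icosahedron ^ 3 * volm P ^ 2 ≤ surf P ^ 3 * volm icosahedron ^ 2 := by
  refine ⟨?_, ?_⟩
  rotate_left
  · rintro S P rfl hS h hc
    exact centrally_symmetric icosahedron rfl S hS h hc
  intro S hS φ c e h
  obtain ⟨w, hI, hc, -⟩ := exists_label p_SET p_RV p_LAB S φ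
  have h1 : ∀ i, ∃ t : ℝ, (1 / 2 : ℝ) • (w i + w (i + 6)) = c + t • e := fun i =>
    h _ _ _ (hc i) (by rw [← reg_add_six]; exact hc (i + 6))
  choose t ht using h1
  refine near_poly p_BRG p_RA p_SET p_RV p_LAB hc
    (Pool.Agent.IcoLocal.near_collinear w c e (fun i => 2 * t i) ?_ ?_)
  · intro i
    have h2 : w i + w (i + 6) = (2 : ℝ) • ((1 / 2 : ℝ) • (w i + w (i + 6))) := by
      rw [smul_smul]
      norm_num
    rw [h2, ht i, smul_add, smul_smul]
  · exact (ineq_iff p_BRG p_RA hI hS).2.2

end Pool.Agent.Results.MP_fa01f0_gt.CollinearMidpoints
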