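import Pool.Agent.ICB.All
import Pool.Agent.IcoLocal.Cut

/-!
# Steiner's question for icosahedral polytopes three of whose main diagonals have a common midpoint
-/

set_option autoImplicit false

namespace Pool.Agent.Results.MP_fa01f0_gt.HalvedHexagon

open Pool.Agent.ICB

/-- Let `P` be a convex polytope with nonempty interior, `φ` an isomorphism of its face poset with
the one of the regular icosahedron `I`, `T` a facet of `P`, and suppose that the three main
diagonals of `P` which end neither on `T` nor on the opposite facet have a common midpoint `c` (main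
diagonal: segment from a vertex `v` to the opposite vertex `v'`, i.e. `φ` maps `v` to `x` and `v'` to
`-x`; the other six vertices are arbitrary). Let `V₁` be the volume of the part of `P` seen from `c`
through the faces that meet `T`, and `V₂ = V(P) - V₁`. Then the surface area of `P` is at least the
mean of the surface areas of the regular icosahedra of volumes `2 V₁` and `2 V₂`. If `V₁ = V₂`,
there is `ε > 0` such that Steiner's inequality holds for every convex polytope `Q` with nonempty
interior of the icosahedral type whose vertices are `ε`-close to those of `P` (in particular for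
`P`), with equality only if `Q` is similar to `I`. -/
theorem result (S : Finset (EuclideanSpace ℝ (Fin 3)))
    (hS : (interior (convexHull ℝ (S : Set (EuclideanSpace ℝ (Fin 3))))).Nonempty)
    (φ : Faces (convexHull ℝ (S : Set (EuclideanSpace ℝ (Fin 3)))) ≃o Faces icosahedron)
    (T : Set (EuclideanSpace ℝ (Fin 3)))
    (hT : IsExposed ℝ (convexHull ℝ (S : Set (EuclideanSpace ℝ (Fin 3)))) T)
    (hT' : T ≠ convexHull ℝ (S : Set (EuclideanSpace ℝ (Fin 3))))
    (hT'' : ∀ F, IsExposed ℝ (convexHull ℝ (S : Set (EuclideanSpace ℝ (Fin 3)))) F →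
      F ≠ convexHull ℝ (S : Set (EuclideanSpace ℝ (Fin 3))) → T ⊆ F → F = T)
    (c : EuclideanSpace ℝ (Fin 3))
    (h : ∀ v v' x, Corr φ v x → Corr φ v' (-x) → v ∉ T → v' ∉ T → (1 / 2 : ℝ) • (v + v') = c)
    (V₁ V₂ : ℝ)
    (hV₁ : V₁ = volm (partOver (convexHull ℝ (S : Set (EuclideanSpace ℝ (Fin 3)))) c T))
    (hV₂ : V₂ = volm (convexHull ℝ (S : Set (EuclideanSpace ℝ (Fin 3)))) - V₁) :
    surf icosahedron * ((2 * V₁ / volm icosahedron) ^ (2 / 3 : ℝ)
      + (2 * V₂ / volm icosahedron) ^ (2 / 3 : ℝ)) ≤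
      2 * surf (convexHull ℝ (S : Set (EuclideanSpace ℝ (Fin 3)))) ∧
    (V₁ = V₂ →
    ∃ ε > 0, ∀ T : Finset (EuclideanSpace ℝ (Fin 3)),
      (interior (convexHull ℝ (T : Set (EuclideanSpace ℝ (Fin 3))))).Nonempty →
      ∀ ψ : Faces (convexHull ℝ (T : Set (EuclideanSpace ℝ (Fin 3)))) ≃o Faces icosahedron,
        (∀ v v' x, Corr φ v x → Corr ψ v' x → dist v v' < ε) →
        surf icosahedron ^ 3 * volm (convexHull ℝ (T : Set (EuclideanSpace ℝ (Fin 3)))) ^ 2 ≤
          surf (convexHull ℝ (T : Set (EuclideanSpace ℝ (Fin 3)))) ^ 3 * volm icosahedron ^ 2 ∧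
        (surf icosahedron ^ 3 * volm (convexHull ℝ (T : Set (EuclideanSpace ℝ (Fin 3)))) ^ 2 =
          surf (convexHull ℝ (T : Set (EuclideanSpace ℝ (Fin 3)))) ^ 3 * volm icosahedron ^ 2 →
          ∃ r > 0, ∀ v v' x x', Corr ψ v x → Corr ψ v' x' → dist v v' = r * dist x x')) := by
  obtain ⟨w, hI, hc, -⟩ := exists_label p_SET p_RV p_LAB S φ
  obtain ⟨g, hg⟩ := hI.cover T hT hT'
  have hTg : face w g = T := hT'' _ (hI.face_exposed g) (hI.face_ne g) hg
  subst hTg
  have hmem : ∀ i, (∀ k, tri g k ≠ i) → w i ∉ face w g := fun i hi hm => by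
    obtain ⟨k, hk⟩ := (hI.mem_face g i).1 hm
    exact hi k hk
  have hw : ∀ i, (∀ k, tri g k ≠ i) → (∀ k, tri g k ≠ i + 6) → w (i + 6) = (2 : ℝ) • c - w i := by
    intro i h1 h2
    have h3 := h (w i) (w (i + 6)) (reg i) (hc i) (by rw [← reg_add_six]; exact hc (i + 6))
      (hmem i h1) (hmem _ h2)
    rw [← h3, smul_smul]
    norm_num
  have hdec : ∀ g : Fin 20, ∃ i : Fin 12, (∀ k, tri g k ≠ i) ∧ ∀ k, tri g k ≠ i + 6 := by decide
  obtain ⟨i, hi1, hi2⟩ := hdec g
  have hcP := hI.mid_mem_interior p_FRT hS i (hw i hi1 hi2)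
  obtain ⟨κ, τ, k0, k1, t0, t1, hb⟩ := p_BRG2
  obtain ⟨a1, v1, p1⟩ := hb _ w hI hS
  obtain ⟨a2, v2, -⟩ := hb Ico reg p_RA interior_Ico
  have hk : 0 < κ.toReal := ENNReal.toReal_pos k0 k1
  have ht : 0 < τ.toReal := ENNReal.toReal_pos t0 t1
  have eSI : surf icosahedron = area reg * κ.toReal := by
    rw [surf, icosahedron_eq p_SET, a2, ENNReal.toReal_mul, ENNReal.toReal_ofReal (area_nonneg _)]
  have eVI : volm icosahedron = |vol reg| * τ.toReal := by
    rw [volm, icosahedron_eq p_SET, v2, ENNReal.toReal_mul, ENNReal.toReal_ofReal (abs_nonneg _)]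
  have eS : surf (hull S) = area w * κ.toReal := by
    rw [surf, a1, ENNReal.toReal_mul, ENNReal.toReal_ofReal (area_nonneg _)]
  have eV : volm (hull S) = |vol w| * τ.toReal := by
    rw [volm, v1, ENNReal.toReal_mul, ENNReal.toReal_ofReal (abs_nonneg _)]
  have e1 : V₁ = |∑ f with Touch g f, dt c w f / 6| * τ.toReal := by
    rw [hV₁, volm, p1 c hcP g, ENNReal.toReal_mul, ENNReal.toReal_ofReal (abs_nonneg _)]
  have hsplit : |vol w| = |∑ f with Touch g f, dt c w f / 6| +
      |∑ f with ¬ Touch g f, dt c w f / 6| := by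
    have s1 := abs_sum p_SGN p_CON hI hcP (Finset.univ.filter (Touch g))
    have s2 := abs_sum p_SGN p_CON hI hcP (Finset.univ.filter fun f => ¬ Touch g f)
    have s3 := abs_sum p_SGN p_CON hI hcP Finset.univ
    have s4 := Finset.sum_filter_add_sum_filter_not Finset.univ (Touch g) fun f => |dt c w f|
    rw [s1, s2, s3, p_SUM w c, abs_mul, abs_of_pos (show (0 : ℝ) < 6 by norm_num)] at s4
    rw [← Finset.sum_div, ← Finset.sum_div, abs_div, abs_div,
      abs_of_pos (show (0 : ℝ) < 6 by norm_num)]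
    linarith
  have e2 : V₂ = |∑ f with ¬ Touch g f, dt c w f / 6| * τ.toReal := by
    rw [hV₂, e1]
    change volm (hull S) - _ = _
    rw [eV, hsplit]
    ring
  have c1 : ∑ f with Touch g f, dt c w f / 6 =
      ∑ f with Pool.Agent.IcoLocal.Meets g f, Pool.Agent.IcoLocal.cone c w f := rfl
  have c2 : ∑ f with ¬ Touch g f, dt c w f / 6 =
      ∑ f with ¬ Pool.Agent.IcoLocal.Meets g f, Pool.Agent.IcoLocal.cone c w f := rfl
  have hvr : 0 < Pool.Agent.Results.MP_fa01f0_gt.CentrallySymmetric.vol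
      Pool.Agent.Results.MP_fa01f0_gt.CentrallySymmetric.regular := by
    rw [Pool.Agent.Results.MP_fa01f0_gt.CentrallySymmetric.vol_regular]
    positivity
  constructor
  · have hcut := Pool.Agent.IcoLocal.cut_ineq g w c hw
    change _ ≤ 2 * surf (hull S)
    rw [eSI, eVI, eS, e1, e2, area_reg, abs_vol_reg, abs_of_pos hvr, c1, c2]
    have q : ∀ a : ℝ, 2 * (|a| * τ.toReal) / (Pool.Agent.Results.MP_fa01f0_gt.CentrallySymmetric.vol
        Pool.Agent.Results.MP_fa01f0_gt.CentrallySymmetric.regular * τ.toReal) =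
        |2 * a| / Pool.Agent.Results.MP_fa01f0_gt.CentrallySymmetric.vol
        Pool.Agent.Results.MP_fa01f0_gt.CentrallySymmetric.regular := by
      intro a
      rw [abs_mul, abs_of_pos (show (0 : ℝ) < 2 by norm_num)]
      field_simp
    rw [q, q]
    have := mul_le_mul_of_nonneg_right hcut hk.le
    rw [area_eq]
    calc _ = _ := by ring
      _ ≤ _ := this
      _ = _ := by ring
  · intro hV
    refine near_poly p_BRG p_RA p_SET p_RV p_LAB hc
      (Pool.Agent.IcoLocal.near_halved g w c hw ?_ (ineq_iff p_BRG p_RA hI hS).2.2)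
    rw [e1, e2] at hV
    have hV' := mul_right_cancel₀ ht.ne' hV
    rw [← c1, ← c2]
    have s1 := abs_sum p_SGN p_CON hI hcP (Finset.univ.filter (Touch g))
    have s2 := abs_sum p_SGN p_CON hI hcP (Finset.univ.filter fun f => ¬ Touch g f)
    have s3 := abs_sum p_SGN p_CON hI hcP Finset.univ
    have s4 := Finset.sum_filter_add_sum_filter_not Finset.univ (Touch g) fun f => |dt c w f|
    have s5 := Finset.sum_filter_add_sum_filter_not Finset.univ (Touch g) fun f => dt c w f
    rw [← Finset.sum_div, ← Finset.sum_div] at hV' ⊢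
    rw [abs_div, abs_div, abs_of_pos (show (0 : ℝ) < 6 by norm_num)] at hV'
    rw [s1, s2, s3, ← s5] at s4
    rcases abs_eq_abs.1 (by linarith :
      |∑ f with Touch g f, dt c w f| = |∑ f with ¬ Touch g f, dt c w f|) with h8 | h8
    · rw [h8]
    · rw [h8, neg_add_cancel, abs_zero, abs_neg] at s4
      have h9 : ∑ f with ¬ Touch g f, dt c w f = 0 := by
        have : |∑ f with ¬ Touch g f, dt c w f| ≤ 0 := by
          have := abs_nonneg (∑ f with ¬ Touch g f, dt c w f)
          linarith
        exact abs_nonpos_iff.1 this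
      rw [h8, h9, neg_zero]

end Pool.Agent.Results.MP_fa01f0_gt.HalvedHexagon
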