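import Pool.Agent.ICB.All
import Pool.Agent.ICE.Fin
import Pool.Agent.ICE.EQC
import Pool.Agent.ICE.L10E
import Pool.Agent.ICE.ROTI
import Pool.Agent.ICE.EQD

/-!
# Steiner's question for the icosahedral polytopes with two opposite vertex links in parallel planes
-/

set_option autoImplicit false

open scoped RealInnerProductSpace

namespace Pool.Agent.Results.MP_fa01f0_gt.ParallelLinks

open Pool.Agent.ICB

/-- Let `P` be a convex polytope with nonempty interior, `φ` an isomorphism of its face poset with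
the one of the regular icosahedron `I` (edge `2`, centre `0`), `v` and `v'` two opposite vertices of
`P` (`φ` maps `v` to `x` and `v'` to `-x`), and suppose that the five neighbours `u` of `v` (vertices
with an edge, i.e. a face, `segment v u`) lie in a plane `⟪n, u⟫ = α` and the five neighbours of `v'`
in a parallel plane `⟪n, u⟫ = β`. Then there is `ε > 0` such that Steiner's inequality
`A ^ 3 / V ^ 2 ≥ A(I) ^ 3 / V(I) ^ 2` holds for every convex polytope `Q` with nonempty interior of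
the icosahedral type whose vertices are `ε`-close to those of `P` (in particular for `P`), with
equality only if `Q` is similar to `I`. -/
theorem result (S : Finset (EuclideanSpace ℝ (Fin 3)))
    (hS : (interior (convexHull ℝ (S : Set (EuclideanSpace ℝ (Fin 3))))).Nonempty)
    (φ : Faces (convexHull ℝ (S : Set (EuclideanSpace ℝ (Fin 3)))) ≃o Faces icosahedron)
    (v v' x n : EuclideanSpace ℝ (Fin 3)) (hv : Corr φ v x) (hv' : Corr φ v' (-x)) (hn : n ≠ 0)
    (α β : ℝ)
    (hα : ∀ u, u ≠ v → IsExposed ℝ (convexHull ℝ (S : Set (EuclideanSpace ℝ (Fin 3)))) {u} →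
      IsExposed ℝ (convexHull ℝ (S : Set (EuclideanSpace ℝ (Fin 3)))) (segment ℝ v u) →
      ⟪n, u⟫ = α)
    (hβ : ∀ u, u ≠ v' → IsExposed ℝ (convexHull ℝ (S : Set (EuclideanSpace ℝ (Fin 3)))) {u} →
      IsExposed ℝ (convexHull ℝ (S : Set (EuclideanSpace ℝ (Fin 3)))) (segment ℝ v' u) →
      ⟪n, u⟫ = β) :
    ∃ ε > 0, ∀ T : Finset (EuclideanSpace ℝ (Fin 3)),
      (interior (convexHull ℝ (T : Set (EuclideanSpace ℝ (Fin 3))))).Nonempty →
      ∀ ψ : Faces (convexHull ℝ (T : Set (EuclideanSpace ℝ (Fin 3)))) ≃o Faces icosahedron,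
        (∀ u u' y, Corr φ u y → Corr ψ u' y → dist u u' < ε) →
        surf icosahedron ^ 3 * volm (convexHull ℝ (T : Set (EuclideanSpace ℝ (Fin 3)))) ^ 2 ≤
          surf (convexHull ℝ (T : Set (EuclideanSpace ℝ (Fin 3)))) ^ 3 * volm icosahedron ^ 2 ∧
        (surf icosahedron ^ 3 * volm (convexHull ℝ (T : Set (EuclideanSpace ℝ (Fin 3)))) ^ 2 =
          surf (convexHull ℝ (T : Set (EuclideanSpace ℝ (Fin 3)))) ^ 3 * volm icosahedron ^ 2 →
          ∃ r > 0, ∀ u u' y y', Corr ψ u y → Corr ψ u' y' → dist u u' = r * dist y y') := by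
  obtain ⟨w, hI, hc, hu⟩ := exists_label p_SET p_RV p_LAB S φ
  obtain ⟨i, rfl, rfl⟩ := hu v x hv
  obtain ⟨j, rfl, hj⟩ := hu v' _ hv'
  have hj' : j = i + 6 := by
    rw [← reg_add_six] at hj
    exact (p_RV.1 hj).symm
  subst hj'
  refine near_poly p_BRG p_RA p_SET p_RV p_LAB hc
    (Pool.Agent.ICE.near_links Pool.Agent.ICE.t_EQC Pool.Agent.ICE.t_L10E Pool.Agent.ICE.t_EQD
      Pool.Agent.ICE.t_ROTI i w n hn α β ?_ ?_ (ineq_iff p_BRG p_RA hI hS).2.2)
  · rintro k ⟨hne, f, a, b, ha, rfl⟩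
    refine hα _ (fun h => hne (hI.inj h).symm) (hI.vertex _) ?_
    exact (hI.edge _ _ hne).2 ⟨hne, f, ⟨a, ha⟩, b, rfl⟩
  · rintro k ⟨hne, f, a, b, ha, rfl⟩
    refine hβ _ (fun h => hne (hI.inj h).symm) (hI.vertex _) ?_
    exact (hI.edge _ _ hne).2 ⟨hne, f, ⟨a, ha⟩, b, rfl⟩

end Pool.Agent.Results.MP_fa01f0_gt.ParallelLinks
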